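import Pool.Agent.Helper43.LB.Div

/-!
# Polynomials algebraic over light polynomials are light
-/

set_option autoImplicit false

namespace Pool.Agent.Helper43.LB

open MvPolynomial Finset Filter Topology
open Pool.Agent.Helper16.KAL (KB)
open Pool.Agent.Helper16.KX (Light)
open Pool.Agent.Helper62.VT (split)

variable {n : ℕ}

/-- A derivation which kills the `T j` kills everything which is algebraic over them. -/
theorem der_alg {m : ℕ} (D : Derivation ℂ (MvPolynomial (Fin n) ℂ) (MvPolynomial (Fin n) ℂ))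
    {T : Fin m → MvPolynomial (Fin n) ℂ} (hT : ∀ j, D (T j) = 0) {F : MvPolynomial (Fin n) ℂ}
    (hF : IsAlgebraic (Algebra.adjoin ℂ (Set.range T)) F) : D F = 0 := by
  let A : Subalgebra ℂ (MvPolynomial (Fin n) ℂ) := Algebra.adjoin ℂ (Set.range T)
  have hDT : Set.EqOn D (0 : Derivation ℂ (MvPolynomial (Fin n) ℂ) (MvPolynomial (Fin n) ℂ))
      (Set.range T) := by
    rintro x ⟨j, rfl⟩
    rw [hT j, Derivation.zero_apply]
  have hDA : ∀ x ∈ A, D x = 0 := fun x hx => Derivation.eqOn_adjoin hDT hx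
  let D' : Derivation A (MvPolynomial (Fin n) ℂ) (MvPolynomial (Fin n) ℂ) :=
    Derivation.mk'
      { toFun := D
        map_add' := fun x y => D.map_add x y
        map_smul' := fun a x => by
          rw [Algebra.smul_def, D.leibniz, RingHom.id_apply]
          have : D (algebraMap A (MvPolynomial (Fin n) ℂ) a) = 0 := hDA _ a.2
          rw [this, smul_zero, add_zero, smul_eq_mul, Algebra.smul_def] }
      (fun a b => D.leibniz a b)
  have hD' : ∀ x, D' x = D x := fun x => rfl
  have hchar : CharZero A := charZero_of_injective_algebraMap (R := ℂ)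
    (algebraMap ℂ A).injective
  classical
  obtain ⟨p0, hp0, hp0F⟩ := hF
  have hex : ∃ k, ∃ p : Polynomial A, p ≠ 0 ∧ Polynomial.aeval F p = 0 ∧ p.natDegree = k :=
    ⟨_, p0, hp0, hp0F, rfl⟩
  obtain ⟨p, hp, hpF, hpk⟩ := Nat.find_spec hex
  have hmin : ∀ q : Polynomial A, q ≠ 0 → Polynomial.aeval F q = 0 → p.natDegree ≤ q.natDegree := by
    intro q h1 h2
    rw [hpk]
    exact Nat.find_min' hex ⟨q, h1, h2, rfl⟩
  have hdeg : p.natDegree ≠ 0 := by
    intro h0
    rw [Polynomial.eq_C_of_natDegree_eq_zero h0, Polynomial.aeval_C] at hpF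
    have h1 : p.coeff 0 = 0 := by
      apply Subtype.ext
      exact hpF
    apply hp
    rw [Polynomial.eq_C_of_natDegree_eq_zero h0, h1, Polynomial.C_0]
  have hder : Polynomial.derivative p ≠ 0 := fun h0 =>
    hdeg (Polynomial.derivative_eq_zero.1 h0)
  have h1 : Polynomial.aeval F (Polynomial.derivative p) ≠ 0 := fun h0 =>
    absurd (hmin _ hder h0) (not_le.2 (Polynomial.natDegree_derivative_lt hdeg))
  have h2 := D'.map_aeval p F
  rw [hpF, map_zero, smul_eq_mul] at h2
  have h3 : D' F = 0 := by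
    rcases mul_eq_zero.1 h2.symm with h | h
    · exact absurd h h1
    · exact h
  rw [← hD']
  exact h3

theorem dep_prod {p : ℕ} {κ : Type*} {ρ : Fin p → ℕ} (c : Fin p → κ → MvPolynomial (Fin n) ℂ)
    (hc : ∀ j, ∀ s : Fin (ρ j + 1) → κ, ¬ AlgebraicIndependent ℂ (fun i => c j (s i)))
    (s : Fin (∑ j, ρ j + 1) → Fin p × κ) :
    ¬ AlgebraicIndependent ℂ (fun i => c (s i).1 (s i).2) := by
  classical
  intro h
  have h1 : ∀ j, (univ.filter (fun i => (s i).1 = j)).card ≤ ρ j := by
    intro j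
    by_contra hcon
    push Not at hcon
    obtain ⟨f⟩ : Nonempty (Fin (ρ j + 1) ↪ {i // i ∈ univ.filter (fun i => (s i).1 = j)}) := by
      apply Function.Embedding.nonempty_of_card_le
      rw [Fintype.card_fin, Fintype.card_coe]
      exact hcon
    have hf : ∀ a, (s (f a)).1 = j := fun a => (Finset.mem_filter.1 (f a).2).2
    apply hc j fun a => (s (f a)).2
    have h3 : (fun a => c j (s (f a)).2) = (fun i => c (s i).1 (s i).2) ∘ fun a => (f a : Fin _) := by
      funext a
      rw [Function.comp_apply, hf a]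
    rw [h3]
    exact h.comp _ fun a b hab => f.injective (Subtype.ext hab)
  have h2 : (univ : Finset (Fin (∑ j, ρ j + 1))).card ≤ ∑ j, ρ j := by
    rw [Finset.card_eq_sum_card_fiberwise (f := fun i => (s i).1) (t := univ)
      fun _ _ => Finset.mem_coe.2 (Finset.mem_univ _)]
    exact Finset.sum_le_sum fun j _ => h1 j
  rw [Finset.card_univ, Fintype.card_fin] at h2
  omega

theorem kb_of_inter {U : Finset (Fin n)} {ρ : ℕ} {A : MvPolynomial (Fin n) ℂ}
    (h : KB (A.vars ∩ U) ρ A) : KB U ρ A := by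
  obtain ⟨M, c, h1, h2, h3⟩ := Pool.Agent.Helper16.KX.kb_enlarge h
  refine ⟨M, c, h1, Algebra.adjoin_mono ?_ h2, h3⟩
  apply Set.union_subset_union_left
  apply Set.image_mono
  exact fun i hi => Finset.mem_coe.2 (Finset.mem_inter.1 (Finset.mem_coe.1 hi)).2

theorem kb_alg' {r m : ℕ} {e : Fin r → Fin n} (he : Function.Injective e) {ρ : Fin m → ℕ}
    {A : Fin m → MvPolynomial (Fin n) ℂ} (h : ∀ j, KB (univ.image e) (ρ j) (A j))
    {f : MvPolynomial (Fin n) ℂ} (hf : IsAlgebraic (Algebra.adjoin ℂ (Set.range A)) f) :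
    KB (univ.image e) (∑ j, ρ j) f := by
  classical
  refine kb_of_dep he fun s hs => ?_
  obtain ⟨e', he'⟩ := Pool.Agent.Helper93.D4.jac_of_algInd _ hs
  have hv : ∀ j k, e k ≠ e' j := by
    intro j k hjk
    apply he'
    apply Matrix.det_eq_zero_of_column_eq_zero j
    intro i
    rw [Matrix.of_apply]
    apply pderiv_eq_zero_of_notMem_vars
    rw [← hjk]
    exact not_mem_of_free (cf_free he f (s i)) k
  let MG : (Fin m × (Fin r →₀ ℕ)) → Fin (∑ j, ρ j + 1) → MvPolynomial (Fin n) ℂ := fun α j =>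
    pderiv (e' j) (coeff α.2 (split e (X : Fin n → MvPolynomial (Fin n) ℂ) (A α.1)))
  have hMG : ∀ α j, MG α j ∈ free e := fun α j => pderiv_free (cf_free he _ α.2) _
  let P : ℕ → Prop := fun t => ∃ (a : Fin t → (Fin m × (Fin r →₀ ℕ)))
    (c : Fin t → Fin (∑ j, ρ j + 1)), (Matrix.of fun i j => MG (a i) (c j)).det ≠ 0
  have hP1 : ¬ P (∑ j, ρ j + 1) := by
    rintro ⟨a, c, hac⟩
    apply hac
    have h4 := JB.jac_eq_zero (dep_prod (fun (j : Fin m) (α : Fin r →₀ ℕ) =>
      coeff α (split e (X : Fin n → MvPolynomial (Fin n) ℂ) (A j)))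
      (fun j => kb_dep he (h j)) a) (e' ∘ c)
    rw [JB.jac, ← Matrix.det_transpose] at h4
    exact h4
  have hP0 : P 0 := ⟨Fin.elim0, Fin.elim0, by rw [Matrix.det_isEmpty]; exact one_ne_zero⟩
  have hex : ∃ t, ¬ P t := ⟨∑ j, ρ j + 1, hP1⟩
  obtain ⟨t, ht⟩ : ∃ t, Nat.find hex = t + 1 := by
    refine Nat.exists_eq_succ_of_ne_zero fun h0 => ?_
    have := Nat.find_spec hex
    rw [h0] at this
    exact this hP0
  have htP : P t := by
    by_contra hcon
    have := Nat.find_min' hex hcon
    omega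
  have htP' : ¬ P (t + 1) := ht ▸ Nat.find_spec hex
  have htρ : t ≤ ∑ j, ρ j := by
    have := Nat.find_min' hex hP1
    omega
  obtain ⟨a, c, hac⟩ := htP
  -- a column outside the minor
  obtain ⟨l, hl⟩ : ((univ.image c)ᶜ : Finset _).Nonempty := by
    rw [← Finset.card_pos, Finset.card_compl, Fintype.card_fin]
    have h1 : (univ.image c).card ≤ t := by
      refine Finset.card_image_le.trans ?_
      rw [Finset.card_univ, Fintype.card_fin]
    omega
  have hc : ∀ j, c j ≠ l := by
    intro j hj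
    rw [Finset.mem_compl] at hl
    exact hl (Finset.mem_image.2 ⟨j, Finset.mem_univ _, hj⟩)
  let C' : Fin (t + 1) → Fin (∑ j, ρ j + 1) := Fin.cons l c
  let W : Fin (t + 1) → MvPolynomial (Fin n) ℂ := fun j =>
    (-1) ^ (j : ℕ) * (Matrix.of fun (i k : Fin t) => MG (a i) (C' (j.succAbove k))).det
  have hW0 : W 0 ≠ 0 := by
    intro h0
    apply hac
    have h1 : W 0 = (Matrix.of fun i j => MG (a i) (c j)).det := by
      simp only [W, C', Fin.val_zero, pow_zero, one_mul, Fin.zero_succAbove, Fin.cons_succ]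
    rw [← h1, h0]
  have hWf : ∀ j, W j ∈ free e := by
    intro j
    refine Subalgebra.mul_mem _ (Subalgebra.pow_mem _ (Subalgebra.neg_mem _
      (Subalgebra.one_mem _)) _) (det_free fun i k => hMG _ _)
  have hkill : ∀ α, ∑ j, W j * MG α (C' j) = 0 := by
    intro α
    by_contra hcon
    apply htP'
    refine ⟨Fin.cons α a, C', fun h0 => hcon ?_⟩
    rw [Matrix.det_succ_row_zero] at h0
    rw [← h0]
    refine Finset.sum_congr rfl fun j _ => ?_
    have h2 : (Matrix.of fun i j => MG ((Fin.cons α a : Fin (t + 1) → _) i)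
        (C' j)).submatrix Fin.succ j.succAbove =
        Matrix.of fun (i k : Fin t) => MG (a i) (C' (j.succAbove k)) := by
      ext1 i k
      rfl
    rw [h2]
    simp only [W, Matrix.of_apply, Fin.cons_zero]
    ring
  -- the derivation
  let D : Derivation ℂ (MvPolynomial (Fin n) ℂ) (MvPolynomial (Fin n) ℂ) :=
    ∑ i, W i • pderiv (e' (C' i))
  have hD : ∀ B, D B = ∑ i, W i * pderiv (e' (C' i)) B := by
    intro B
    have h1 : ∀ s : Finset (Fin (t + 1)), (∑ i ∈ s, W i • (pderiv (e' (C' i)) :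
        Derivation ℂ (MvPolynomial (Fin n) ℂ) (MvPolynomial (Fin n) ℂ))) B =
          ∑ i ∈ s, W i * pderiv (e' (C' i)) B := by
      intro s
      induction s using Finset.induction_on with
      | empty => rfl
      | insert a s ha ih =>
        rw [Finset.sum_insert ha, Finset.sum_insert ha, Derivation.add_apply, ih,
          Derivation.smul_apply, smul_eq_mul]
    exact h1 Finset.univ
  have hcf := fun (B : MvPolynomial (Fin n) ℂ) (α : Fin r →₀ ℕ) =>
    cf_der he (fun i j => not_mem_of_free (hWf i) j) (v := fun i => e' (C' i))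
      (fun i j => hv _ _) B α
  have hDA : ∀ j, D (A j) = 0 := by
    intro j
    have h1 : split e (X : Fin n → MvPolynomial (Fin n) ℂ) (D (A j)) = 0 := by
      ext1 α
      rw [hD, hcf, coeff_zero]
      exact hkill (j, α)
    rw [← unsplit he (D (A j)), h1, map_zero]
  have hDf := der_alg D hDA hf
  -- the vector
  let V : Fin (∑ j, ρ j + 1) → MvPolynomial (Fin n) ℂ := fun y =>
    ∑ j, if C' j = y then W j else 0
  have hMV : (Matrix.of fun i j => pderiv (e' j)
      (coeff (s i) (split e (X : Fin n → MvPolynomial (Fin n) ℂ) f))).mulVec V = 0 := by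
    ext1 i
    have h1 : ∑ j, W j * pderiv (e' (C' j))
        (coeff (s i) (split e (X : Fin n → MvPolynomial (Fin n) ℂ) f)) = 0 := by
      rw [← hcf, ← hD, hDf, map_zero, coeff_zero]
    rw [Pi.zero_apply, ← h1, Matrix.mulVec, dotProduct]
    simp only [V, Finset.mul_sum]
    rw [Finset.sum_comm]
    refine Finset.sum_congr rfl fun j _ => ?_
    rw [Finset.sum_eq_single (C' j)]
    · rw [if_pos rfl, Matrix.of_apply, mul_comm]
    · intro y _ hy
      rw [if_neg (Ne.symm hy), mul_zero]
    · intro h1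
      exact absurd (Finset.mem_univ _) h1
  have hV := congrFun (Matrix.eq_zero_of_mulVec_eq_zero he' hMV) l
  have hVl : V l = W 0 := by
    simp only [V]
    rw [Finset.sum_eq_single 0]
    · rw [if_pos]
      exact Fin.cons_zero _ _
    · intro j _ hj
      obtain ⟨j', rfl⟩ := Fin.exists_succ_eq.2 hj
      rw [if_neg]
      intro h1
      apply hc j'
      rw [← h1]
      exact (Fin.cons_succ (α := fun _ => Fin (∑ j, ρ j + 1)) l c j').symm
    · intro h1
      exact absurd (Finset.mem_univ _) h1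
  rw [hVl, Pi.zero_apply] at hV
  exact hW0 hV

/-- Polynomials which are algebraic over light polynomials are light. -/
theorem light_alg {p τ q : ℕ} {ω : Fin n → ℕ} {A : Fin p → MvPolynomial (Fin n) ℂ}
    (hA : ∀ j, A j ∈ Light n ω τ q) {f : MvPolynomial (Fin n) ℂ}
    (hf : IsAlgebraic (Algebra.adjoin ℂ (Set.range A)) f) : f ∈ Light n ω τ (p * q) := by
  classical
  intro U hU hw
  have hcov : ∀ i ∈ U, ∃ j, i ∈ (A j).vars := by
    intro i hi
    by_contra hcon
    push Not at hcon
    have h1 : pderiv i f = 0 := der_alg (pderiv i) (fun j => pderiv_eq_zero_of_notMem_vars (hcon j)) hf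
    obtain ⟨d, hd, hdi⟩ := (mem_vars_iff_mem_support i).1 (hU hi)
    have h2 : coeff (d - Finsupp.single i 1) (pderiv i f) ≠ 0 := by
      rw [coeff_pderiv]
      have h3 : d - Finsupp.single i 1 + Finsupp.single i 1 = d := by
        apply Finsupp.sub_add_single_one_cancel
        exact Finsupp.mem_support_iff.1 hdi
      rw [h3]
      exact mul_ne_zero (mem_support_iff.1 hd) (Nat.cast_add_one_ne_zero _)
    exact h2 (by rw [h1, coeff_zero])
  have h1 : ∀ j, ∃ ρ, KB ((A j).vars ∩ U) ρ (A j) ∧ ρ + ((A j).vars ∩ U).card ≤ q := fun j =>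
    hA j _ Finset.inter_subset_left
      ((Finset.sum_le_sum_of_subset Finset.inter_subset_right).trans hw)
  choose ρ h2 h3 using h1
  have h8 : U.card ≤ ∑ j, ((A j).vars ∩ U).card := by
    refine (Finset.card_le_card ?_).trans Finset.card_biUnion_le
    intro i hi
    obtain ⟨j, hj⟩ := hcov i hi
    exact Finset.mem_biUnion.2 ⟨j, Finset.mem_univ j, Finset.mem_inter.2 ⟨hj, hi⟩⟩
  have h9 : ∑ j, (ρ j + ((A j).vars ∩ U).card) ≤ p * q := by
    refine (Finset.sum_le_card_nsmul _ _ q fun j _ => h3 j).trans ?_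
    rw [Finset.card_univ, Fintype.card_fin, smul_eq_mul]
  rw [Finset.sum_add_distrib] at h9
  refine ⟨∑ j, ρ j, ?_, by omega⟩
  have h4 : ∀ j, KB U (ρ j) (A j) := fun j => kb_of_inter (h2 j)
  clear h2 h3 h8 h9 hcov hU hw
  obtain ⟨r, e, he, rfl⟩ : ∃ (r : ℕ) (e : Fin r → Fin n), Function.Injective e ∧
      univ.image e = U := by
    refine ⟨U.card, fun i => (U.equivFin.symm i : Fin n), fun i j hij => ?_, ?_⟩
    · exact U.equivFin.symm.injective (Subtype.ext hij)
    · ext x
      rw [Finset.mem_image]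
      constructor
      · rintro ⟨i, -, rfl⟩
        exact (U.equivFin.symm i).2
      · intro hx
        exact ⟨U.equivFin ⟨x, hx⟩, Finset.mem_univ _, by simp⟩
  exact kb_alg' he h4 hf

end Pool.Agent.Helper43.LB
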