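import Pool.Agent.Helper16.KX.Coef
import Pool.Agent.Helper16.KAL.Norm2
import Pool.Agent.Helper61.JB.Dep

/-!
# Kalorkoti bounds and light polynomials are closed under coefficientwise limits

`KB U ρ A` holds if and only if no `ρ + 1` of the coefficients of `A` with respect to the monomials in the
variables of `U` are algebraically independent. Coefficients of these coefficients are coefficients of
`A`, and the minors of Jacobian matrices depend continuously on them.
-/

set_option autoImplicit false
set_option linter.unusedSectionVars false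

namespace Pool.Agent.Helper43.LB

open MvPolynomial Finset Filter Topology
open Pool.Agent.Helper16.KAL (KB)
open Pool.Agent.Helper16.KX (Light)
open Pool.Agent.Helper62.VT (split)

variable {n : ℕ}

/-- Coefficientwise convergence. -/
def CT {σ : Type*} (l : Filter ℕ) (u : ℕ → MvPolynomial σ ℂ) (v : MvPolynomial σ ℂ) : Prop :=
  ∀ m, Tendsto (fun t => coeff m (u t)) l (𝓝 (coeff m v))

theorem ct_const {σ : Type*} (l : Filter ℕ) (v : MvPolynomial σ ℂ) : CT l (fun _ => v) v :=
  fun _ => tendsto_const_nhds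

theorem ct_mul {σ : Type*} {l : Filter ℕ} {u u' : ℕ → MvPolynomial σ ℂ} {v v' : MvPolynomial σ ℂ}
    (h : CT l u v) (h' : CT l u' v') : CT l (fun t => u t * u' t) (v * v') := by
  classical
  intro m
  simp only [coeff_mul]
  exact tendsto_finsetSum _ fun x _ => (h x.1).mul (h' x.2)

theorem ct_sum {σ ι : Type*} {l : Filter ℕ} (s : Finset ι) {u : ι → ℕ → MvPolynomial σ ℂ}
    {v : ι → MvPolynomial σ ℂ} (h : ∀ i ∈ s, CT l (u i) (v i)) :
    CT l (fun t => ∑ i ∈ s, u i t) (∑ i ∈ s, v i) := by
  intro m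
  simp only [coeff_sum]
  exact tendsto_finsetSum _ fun i hi => h i hi m

theorem ct_prod {σ ι : Type*} {l : Filter ℕ} (s : Finset ι) {u : ι → ℕ → MvPolynomial σ ℂ}
    {v : ι → MvPolynomial σ ℂ} (h : ∀ i ∈ s, CT l (u i) (v i)) :
    CT l (fun t => ∏ i ∈ s, u i t) (∏ i ∈ s, v i) := by
  classical
  induction s using Finset.induction_on with
  | empty => simpa using ct_const l (1 : MvPolynomial σ ℂ)
  | insert a s ha ih =>
    simp only [Finset.prod_insert ha]
    exact ct_mul (h a (Finset.mem_insert_self a s))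
      (ih fun i hi => h i (Finset.mem_insert_of_mem hi))

theorem ct_pderiv {l : Filter ℕ} {u : ℕ → MvPolynomial (Fin n) ℂ} {v : MvPolynomial (Fin n) ℂ}
    (h : CT l u v) (i : Fin n) : CT l (fun t => pderiv i (u t)) (pderiv i v) := by
  intro m
  simp only [coeff_pderiv]
  exact (h _).mul_const _

theorem ct_det {σ : Type*} {l : Filter ℕ} {r : ℕ}
    {u : ℕ → Matrix (Fin r) (Fin r) (MvPolynomial σ ℂ)}
    {v : Matrix (Fin r) (Fin r) (MvPolynomial σ ℂ)} (h : ∀ i j, CT l (fun t => u t i j) (v i j)) :
    CT l (fun t => (u t).det) v.det := by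
  simp only [Matrix.det_apply']
  exact ct_sum _ fun p _ => ct_mul (ct_const _ _) (ct_prod _ fun i _ => h _ _)

/-! ### Coefficients with respect to the variables `x_(e j)` -/

/-- The part of the exponent `m` in the variables `x_(e j)`. -/
noncomputable def inn {r : ℕ} {e : Fin r → Fin n} (he : Function.Injective e) (m : Fin n →₀ ℕ) :
    Fin r →₀ ℕ := m.comapDomain e he.injOn

/-- The part of the exponent `m` in the other variables. -/
noncomputable def out {r : ℕ} (e : Fin r → Fin n) (m : Fin n →₀ ℕ) : Fin n →₀ ℕ :=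
  open Classical in m.filter fun l => ¬ ∃ j, e j = l

theorem inn_out_inj {r : ℕ} {e : Fin r → Fin n} (he : Function.Injective e) {m m' : Fin n →₀ ℕ}
    (h1 : inn he m = inn he m') (h2 : out e m = out e m') : m = m' := by
  classical
  ext l
  by_cases h : ∃ j, e j = l
  · obtain ⟨j, rfl⟩ := h
    have h3 := DFunLike.congr_fun h1 j
    simpa [inn, Finsupp.comapDomain_apply] using h3
  · have h3 := DFunLike.congr_fun h2 l
    have h' : ∀ j, ¬ e j = l := fun j hj => h ⟨j, hj⟩
    simpa [out, Finsupp.filter_apply, h'] using h3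

theorem split_monomial {r : ℕ} {e : Fin r → Fin n} (he : Function.Injective e) (m : Fin n →₀ ℕ) :
    split e (X : Fin n → MvPolynomial (Fin n) ℂ) (monomial m 1) =
      monomial (inn he m) (monomial (out e m) 1) := by
  classical
  induction m using Finsupp.induction_linear with
  | zero =>
    have h1 : inn he (0 : Fin n →₀ ℕ) = 0 := by
      ext j
      simp [inn]
    have h2 : out e (0 : Fin n →₀ ℕ) = 0 := by
      ext j
      simp [out, Finsupp.filter_apply]
    rw [h1, h2]
    change split e (X : Fin n → MvPolynomial (Fin n) ℂ) 1 = _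
    rw [map_one]
    rfl
  | add m m' hm hm' =>
    have h1 : inn he (m + m') = inn he m + inn he m' := by
      ext j
      simp [inn]
    have h2 : out e (m + m') = out e m + out e m' := by
      simp [out, Finsupp.filter_add]
    have h3 : (monomial (m + m') (1 : ℂ) : MvPolynomial (Fin n) ℂ) = monomial m 1 * monomial m' 1 := by
      rw [monomial_mul, one_mul]
    rw [h3, map_mul, hm, hm', h1, h2, monomial_mul, monomial_mul, one_mul]
  | single l k =>
    have h3 : (monomial (Finsupp.single l k) (1 : ℂ) : MvPolynomial (Fin n) ℂ) = X l ^ k := by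
      rw [X_pow_eq_monomial]
    rw [h3, map_pow]
    by_cases h : ∃ j, e j = l
    · obtain ⟨j, rfl⟩ := h
      rw [Pool.Agent.Helper62.VT.split_X_mem he]
      have h1 : inn he (Finsupp.single (e j) k) = Finsupp.single j k := by
        ext i
        by_cases hij : i = j
        · subst hij
          simp [inn]
        · have h4 : e i ≠ e j := fun h5 => hij (he h5)
          rw [inn, Finsupp.comapDomain_apply, Finsupp.single_apply, Finsupp.single_apply,
            if_neg (Ne.symm h4), if_neg (Ne.symm hij)]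
      have h2 : out e (Finsupp.single (e j) k) = 0 := by
        rw [out, Finsupp.filter_single_of_neg]
        simp
      rw [h1, h2, X_pow_eq_monomial]
      rfl
    · rw [Pool.Agent.Helper62.VT.split_X_not _ (by
        intro j hj
        exact h ⟨j, hj⟩)]
      have h1 : inn he (Finsupp.single l k) = 0 := by
        ext i
        have h4 : e i ≠ l := fun h5 => h ⟨i, h5⟩
        rw [inn, Finsupp.comapDomain_apply, Finsupp.single_apply, if_neg (Ne.symm h4)]
        rfl
      have h2 : out e (Finsupp.single l k) = Finsupp.single l k := by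
        rw [out, Finsupp.filter_single_of_pos]
        exact h
      rw [h1, h2, ← C_pow, X_pow_eq_monomial]
      rfl

theorem coef_monomial {r : ℕ} {e : Fin r → Fin n} (he : Function.Injective e) (m : Fin n →₀ ℕ)
    (c : ℂ) (α : Fin r →₀ ℕ) (β : Fin n →₀ ℕ) :
    coeff β (coeff α (split e (X : Fin n → MvPolynomial (Fin n) ℂ) (monomial m c))) =
      if inn he m = α ∧ out e m = β then c else 0 := by
  classical
  have h1 : (monomial m c : MvPolynomial (Fin n) ℂ) = c • monomial m 1 := by
    rw [smul_monomial, smul_eq_mul, mul_one]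
  rw [h1, map_smul, split_monomial he]
  by_cases h2 : inn he m = α
  · by_cases h3 : out e m = β
    · simp [coeff_smul, coeff_monomial, h2, h3]
    · simp [coeff_smul, coeff_monomial, h2, h3]
  · simp [coeff_smul, coeff_monomial, h2]

theorem coef_formula {r : ℕ} {e : Fin r → Fin n} (he : Function.Injective e) (α : Fin r →₀ ℕ)
    (β : Fin n →₀ ℕ) :
    (∀ B : MvPolynomial (Fin n) ℂ,
      coeff β (coeff α (split e (X : Fin n → MvPolynomial (Fin n) ℂ) B)) = 0) ∨
    ∃ m₀, ∀ B : MvPolynomial (Fin n) ℂ,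
      coeff β (coeff α (split e (X : Fin n → MvPolynomial (Fin n) ℂ) B)) = coeff m₀ B := by
  classical
  by_cases h : ∃ m₀, inn he m₀ = α ∧ out e m₀ = β
  · obtain ⟨m₀, hm1, hm2⟩ := h
    refine Or.inr ⟨m₀, fun B => ?_⟩
    induction B using MvPolynomial.induction_on' with
    | monomial m c =>
      rw [coef_monomial he, coeff_monomial]
      refine if_congr ⟨fun h3 => ?_, fun h3 => ?_⟩ rfl rfl
      · exact inn_out_inj he (h3.1.trans hm1.symm) (h3.2.trans hm2.symm)
      · rw [h3]
        exact ⟨hm1, hm2⟩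
    | add p q hp hq => rw [map_add, coeff_add, coeff_add, coeff_add, hp, hq]
  · refine Or.inl fun B => ?_
    induction B using MvPolynomial.induction_on' with
    | monomial m c =>
      rw [coef_monomial he, if_neg]
      exact fun h3 => h ⟨m, h3⟩
    | add p q hp hq => rw [map_add, coeff_add, coeff_add, hp, hq, add_zero]

theorem ct_coef {l : Filter ℕ} {u : ℕ → MvPolynomial (Fin n) ℂ} {v : MvPolynomial (Fin n) ℂ}
    (h : CT l u v) {r : ℕ} {e : Fin r → Fin n} (he : Function.Injective e) (α : Fin r →₀ ℕ) :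
    CT l (fun t => coeff α (split e (X : Fin n → MvPolynomial (Fin n) ℂ) (u t)))
      (coeff α (split e (X : Fin n → MvPolynomial (Fin n) ℂ) v)) := by
  intro β
  rcases coef_formula he α β with h1 | ⟨m₀, h1⟩
  · simp only [h1]
    exact tendsto_const_nhds
  · simp only [h1]
    exact h m₀

/-! ### Kalorkoti bounds -/

theorem kb_mono {U : Finset (Fin n)} {ρ ρ' : ℕ} (hρ : ρ ≤ ρ') {A : MvPolynomial (Fin n) ℂ}
    (h : KB U ρ A) : KB U ρ' A := by
  obtain ⟨M, c, h1, h2, h3⟩ := h
  refine ⟨M, c, h1, h2, fun s hs => h3 (fun i => s (Fin.castLE (by omega) i)) ?_⟩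
  exact hs.comp (Fin.castLE (by omega)) (Fin.castLE_injective _)

/-- Elements of an algebra generated by polynomials, no `ρ + 1` of which are independent. -/
theorem dep_of_mem {M ρ : ℕ} {c : Fin M → MvPolynomial (Fin n) ℂ}
    (hc : ∀ s : Fin (ρ + 1) → Fin M, ¬ AlgebraicIndependent ℂ (fun i => c (s i)))
    {P : Fin (ρ + 1) → MvPolynomial (Fin n) ℂ} (hP : ∀ i, P i ∈ Algebra.adjoin ℂ (Set.range c)) :
    ¬ AlgebraicIndependent ℂ P := by
  classical
  intro h
  obtain ⟨e, he⟩ := Pool.Agent.Helper93.D4.jac_of_algInd P h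
  rw [Algebra.adjoin_range_eq_range_aeval] at hP
  have hex : ∀ i, ∃ G : MvPolynomial (Fin M) ℂ, aeval c G = P i := hP
  choose G hG using hex
  apply he
  have h1 : (Matrix.of fun i j => pderiv (e j) (P i)) =
      fun i => ∑ k : Fin M, (aeval c (pderiv k (G i))) • fun j => pderiv (e j) (c k) := by
    funext i j
    rw [Finset.sum_apply, Matrix.of_apply, ← hG i, JB.pderiv_aeval]
    rfl
  rw [h1]
  change Matrix.detRowAlternating (R := MvPolynomial (Fin n) ℂ) (n := Fin (ρ + 1)) _ = 0
  have h2 := (Matrix.detRowAlternating (R := MvPolynomial (Fin n) ℂ)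
    (n := Fin (ρ + 1))).toMultilinearMap.map_sum
      (fun i (k : Fin M) => (aeval c (pderiv k (G i))) • fun j => pderiv (e j) (c k))
  refine h2.trans (Finset.sum_eq_zero fun f _ => ?_)
  rw [MultilinearMap.map_smul_univ]
  have h3 : (Matrix.detRowAlternating (R := MvPolynomial (Fin n) ℂ)
      (n := Fin (ρ + 1))).toMultilinearMap (fun i j => pderiv (e j) (c (f i))) = 0 := by
    have h4 := JB.jac_eq_zero (hc f) e
    rw [JB.jac, ← Matrix.det_transpose] at h4
    exact h4
  rw [h3, smul_zero]

theorem kb_dep {r ρ : ℕ} {e : Fin r → Fin n} (he : Function.Injective e) {B : MvPolynomial (Fin n) ℂ}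
    (h : KB (univ.image e) ρ B) (s : Fin (ρ + 1) → (Fin r →₀ ℕ)) :
    ¬ AlgebraicIndependent ℂ
      (fun i => coeff (s i) (split e (X : Fin n → MvPolynomial (Fin n) ℂ) B)) := by
  obtain ⟨M, c, h1, h2, h3⟩ := h
  refine dep_of_mem h3 fun i => ?_
  refine Pool.Agent.Helper16.KX.coef_mem he (Set.range c) ?_ B ?_ (s i)
  · rintro x ⟨k, rfl⟩ j hj
    exact Finset.disjoint_left.1 (h1 k) hj (Finset.mem_image_of_mem e (Finset.mem_univ j))
  · refine Algebra.adjoin_mono ?_ h2
    apply Set.union_subset_union_left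
    rintro x ⟨i, hi, rfl⟩
    rw [Finset.mem_coe, Finset.mem_image] at hi
    obtain ⟨j, -, rfl⟩ := hi
    exact ⟨j, rfl⟩

theorem kb_of_dep {r ρ : ℕ} {e : Fin r → Fin n} (he : Function.Injective e)
    {B : MvPolynomial (Fin n) ℂ}
    (h : ∀ s : Fin (ρ + 1) → (Fin r →₀ ℕ), ¬ AlgebraicIndependent ℂ
      (fun i => coeff (s i) (split e (X : Fin n → MvPolynomial (Fin n) ℂ) B))) :
    KB (univ.image e) ρ B := by
  classical
  set S := split e (X : Fin n → MvPolynomial (Fin n) ℂ) B with hS
  set a := S.support.equivFin.symm with ha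
  refine ⟨S.support.card, fun k => coeff (a k : Fin r →₀ ℕ) S, fun k => ?_, ?_,
    fun s => h fun i => (a (s i) : Fin r →₀ ℕ)⟩
  · rw [Finset.disjoint_left]
    intro i hi hU
    rw [Finset.mem_image] at hU
    obtain ⟨j, -, rfl⟩ := hU
    exact (Pool.Agent.Helper16.KX.coef_vars he B (a k) (e j) hi).2 j rfl
  · have h1 : aeval (fun j => (X (e j) : MvPolynomial (Fin n) ℂ)) S = B := by
      have h2 : ((aeval (fun j => (X (e j) : MvPolynomial (Fin n) ℂ)) :
          MvPolynomial (Fin r) (MvPolynomial (Fin n) ℂ) →ₐ[MvPolynomial (Fin n) ℂ]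
            MvPolynomial (Fin n) ℂ).restrictScalars ℂ).comp
          (split e (X : Fin n → MvPolynomial (Fin n) ℂ)) = AlgHom.id ℂ _ := by
        apply MvPolynomial.algHom_ext
        intro l
        by_cases h3 : ∃ j, e j = l
        · obtain ⟨j, rfl⟩ := h3
          change aeval (fun j => (X (e j) : MvPolynomial (Fin n) ℂ)) (split e X (X (e j))) = X (e j)
          rw [Pool.Agent.Helper62.VT.split_X_mem he, aeval_X]
        · change aeval (fun j => (X (e j) : MvPolynomial (Fin n) ℂ)) (split e X (X l)) = X l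
          rw [Pool.Agent.Helper62.VT.split_X_not _ (by
            intro j hj
            exact h3 ⟨j, hj⟩), aeval_C]
          rfl
      exact DFunLike.congr_fun h2 B
    rw [← h1, aeval_def, eval₂_eq]
    refine Subalgebra.sum_mem _ fun α hα => Subalgebra.mul_mem _ ?_ ?_
    · apply Algebra.subset_adjoin
      refine Or.inr ⟨a.symm ⟨α, hα⟩, ?_⟩
      simp only [Equiv.apply_symm_apply]
      rfl
    · refine Subalgebra.prod_mem _ fun j _ => Subalgebra.pow_mem _ ?_ _
      apply Algebra.subset_adjoin
      refine Or.inl ⟨e j, ?_, rfl⟩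
      rw [Finset.mem_coe]
      exact Finset.mem_image_of_mem e (Finset.mem_univ j)

/-- Kalorkoti bounds are closed under coefficientwise limits. -/
theorem kb_closed {U : Finset (Fin n)} {ρ : ℕ} {A : ℕ → MvPolynomial (Fin n) ℂ}
    {f : MvPolynomial (Fin n) ℂ} (hK : ∀ᶠ t in atTop, KB U ρ (A t)) (hl : CT atTop A f) :
    KB U ρ f := by
  classical
  obtain ⟨r, e, he, rfl⟩ : ∃ (r : ℕ) (e : Fin r → Fin n), Function.Injective e ∧
      univ.image e = U := by
    refine ⟨U.card, fun i => (U.equivFin.symm i : Fin n), fun i j hij => ?_, ?_⟩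
    · exact U.equivFin.symm.injective (Subtype.ext hij)
    · ext x
      rw [Finset.mem_image]
      constructor
      · rintro ⟨i, -, rfl⟩
        exact (U.equivFin.symm i).2
      · intro hx
        exact ⟨U.equivFin ⟨x, hx⟩, Finset.mem_univ _, by simp⟩
  refine kb_of_dep he fun s hs => ?_
  obtain ⟨e', he'⟩ := Pool.Agent.Helper93.D4.jac_of_algInd _ hs
  apply he'
  have h1 : CT atTop (fun t => (Matrix.of fun i j => pderiv (e' j)
      (coeff (s i) (split e (X : Fin n → MvPolynomial (Fin n) ℂ) (A t)))).det)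
      (Matrix.of fun i j => pderiv (e' j)
      (coeff (s i) (split e (X : Fin n → MvPolynomial (Fin n) ℂ) f))).det :=
    ct_det fun i j => ct_pderiv (ct_coef hl he (s i)) (e' j)
  have h2 : ∀ᶠ t in atTop, (Matrix.of fun i j => pderiv (e' j)
      (coeff (s i) (split e (X : Fin n → MvPolynomial (Fin n) ℂ) (A t)))).det = 0 := by
    filter_upwards [hK] with t ht
    have h4 := JB.jac_eq_zero (kb_dep he ht s) e'
    rw [JB.jac, ← Matrix.det_transpose] at h4
    exact h4
  ext m
  rw [coeff_zero]
  refine tendsto_nhds_unique (h1 m) ?_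
  refine Tendsto.congr' ?_ tendsto_const_nhds
  filter_upwards [h2] with t ht
  rw [ht, coeff_zero]

/-- Light polynomials are closed under coefficientwise limits. -/
theorem light_closed {ω : Fin n → ℕ} {τ q : ℕ} {A : ℕ → MvPolynomial (Fin n) ℂ}
    {f : MvPolynomial (Fin n) ℂ} (hA : ∀ t, A t ∈ Light n ω τ q)
    (hl : ∀ m, Tendsto (fun t => coeff m (A t)) atTop (𝓝 (coeff m f))) : f ∈ Light n ω τ q := by
  classical
  intro U hU hw
  have h1 : ∀ᶠ t in atTop, U ⊆ (A t).vars := by
    have h2 : ∀ i ∈ U, ∀ᶠ t in atTop, i ∈ (A t).vars := by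
      intro i hi
      obtain ⟨m, hm, hmi⟩ := (mem_vars_iff_mem_support i).1 (hU hi)
      have h3 : ∀ᶠ t in atTop, coeff m (A t) ≠ 0 :=
        (hl m).eventually_ne (mem_support_iff.1 hm)
      filter_upwards [h3] with t ht
      exact (mem_vars_iff_mem_support i).2 ⟨m, mem_support_iff.2 ht, hmi⟩
    have h4 := (Filter.eventually_all_finset U).2 h2
    filter_upwards [h4] with t ht
    exact fun i hi => ht i hi
  have h5 : ∀ᶠ t in atTop, ∃ ρ, KB U ρ (A t) ∧ ρ + U.card ≤ q := by
    filter_upwards [h1] with t ht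
    exact hA t U ht hw
  obtain ⟨t, ρ, -, h6⟩ := h5.exists
  refine ⟨q - U.card, kb_closed ?_ hl, by omega⟩
  filter_upwards [h5] with t ht
  obtain ⟨ρ, h7, h8⟩ := ht
  exact kb_mono (by omega) h7

end Pool.Agent.Helper43.LB
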