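import Pool.Agent.Helper43.LB.Factors

/-!
# Divisors of light polynomials are light

If `g ≠ 0` satisfies `KB U ρ g` and `f` divides `g` then `KB U (ρ + 1) f`: a derivation which kills the
coefficients of `g` with respect to the variables of `U` maps `f` to a multiple of `f`.
-/

set_option autoImplicit false

namespace Pool.Agent.Helper43.LB

open MvPolynomial Finset Filter Topology
open Pool.Agent.Helper16.KAL (KB)
open Pool.Agent.Helper16.KX (Light)
open Pool.Agent.Helper62.VT (split)

variable {n : ℕ}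

/-! ### Derivations and divisors -/

theorem prime_dvd_der (D : Derivation ℂ (MvPolynomial (Fin n) ℂ) (MvPolynomial (Fin n) ℂ))
    {g p : MvPolynomial (Fin n) ℂ} (hg : g ≠ 0) (hD : D g = 0) (hp : Prime p) (h : p ∣ g) :
    p ∣ D p := by
  obtain ⟨c, hgc, hc⟩ :=
    (FiniteMultiplicity.of_prime_left hp hg).exists_eq_pow_mul_and_not_dvd
  obtain ⟨e, he⟩ : ∃ e, multiplicity p g = e := ⟨_, rfl⟩
  rw [he] at hgc
  rcases e with _ | e
  · rw [pow_zero, one_mul] at hgc
    rw [hgc] at h
    exact absurd h hc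
  · rw [hgc, Derivation.leibniz, Derivation.leibniz_pow, Nat.add_sub_cancel] at hD
    simp only [smul_eq_mul, nsmul_eq_mul] at hD
    have h1 : p ^ e * (p * D c + ((e + 1 : ℕ) : MvPolynomial (Fin n) ℂ) * c * D p) = 0 := by
      rw [← hD]
      ring
    have h2 := (mul_eq_zero.1 h1).resolve_left (pow_ne_zero e hp.ne_zero)
    have h3 : p ∣ ((e + 1 : ℕ) : MvPolynomial (Fin n) ℂ) * c * D p := by
      refine ⟨-D c, ?_⟩
      linear_combination h2
    rcases hp.dvd_or_dvd h3 with h4 | h4
    · rcases hp.dvd_or_dvd h4 with h5 | h5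
      · exfalso
        apply hp.not_isUnit
        refine isUnit_of_dvd_unit h5 ?_
        have h6 : (((e + 1 : ℕ) : MvPolynomial (Fin n) ℂ)) = C ((e + 1 : ℕ) : ℂ) := by
          rw [map_natCast]
        rw [h6]
        exact (IsUnit.mk0 _ (Nat.cast_ne_zero.2 (Nat.succ_ne_zero e))).map C
      · exact absurd h5 hc
    · exact h4

theorem dvd_der (D : Derivation ℂ (MvPolynomial (Fin n) ℂ) (MvPolynomial (Fin n) ℂ))
    {g : MvPolynomial (Fin n) ℂ} (hg : g ≠ 0) (hD : D g = 0) (f : MvPolynomial (Fin n) ℂ)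
    (h : f ∣ g) : f ∣ D f := by
  induction f using UniqueFactorizationMonoid.induction_on_prime with
  | h₁ => exact absurd (zero_dvd_iff.1 h) hg
  | h₂ x hx => exact hx.dvd
  | h₃ a p ha hp ih =>
    rw [Derivation.leibniz, smul_eq_mul, smul_eq_mul]
    refine dvd_add ?_ ?_
    · exact mul_dvd_mul_left p (ih ((Dvd.intro_left p rfl).trans h))
    · rw [mul_comm p a]
      exact mul_dvd_mul_left a (prime_dvd_der D hg hD hp ((Dvd.intro a rfl).trans h))

/-! ### Coefficients and derivations -/

theorem split_C' {r : ℕ} {e : Fin r → Fin n} (x : MvPolynomial (Fin n) ℂ)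
    (hx : ∀ j, e j ∉ x.vars) :
    split e (X : Fin n → MvPolynomial (Fin n) ℂ) x = C x := by
  have h1 : x ∈ supported ℂ {i : Fin n | ∀ j, e j ≠ i} := by
    rw [mem_supported]
    intro i hi j hj
    exact hx j (by rw [hj]; exact hi)
  rw [supported_eq_adjoin_X] at h1
  have h2 : (split e (X : Fin n → MvPolynomial (Fin n) ℂ)) x =
      (IsScalarTower.toAlgHom ℂ (MvPolynomial (Fin n) ℂ)
        (MvPolynomial (Fin r) (MvPolynomial (Fin n) ℂ))) x := by
    refine AlgHom.eqOn_adjoin_iff.2 ?_ h1
    rintro _ ⟨i, hi, rfl⟩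
    exact Pool.Agent.Helper62.VT.split_X_not _ hi
  exact h2

theorem cf_mul {r : ℕ} {e : Fin r → Fin n} (x B : MvPolynomial (Fin n) ℂ)
    (hx : ∀ j, e j ∉ x.vars) (α : Fin r →₀ ℕ) :
    coeff α (split e (X : Fin n → MvPolynomial (Fin n) ℂ) (x * B)) =
      x * coeff α (split e (X : Fin n → MvPolynomial (Fin n) ℂ) B) := by
  rw [map_mul, split_C' x hx, coeff_C_mul]

theorem cf_pderiv {r : ℕ} {e : Fin r → Fin n} (he : Function.Injective e) (v : Fin n)
    (hv : ∀ j, e j ≠ v) (B : MvPolynomial (Fin n) ℂ) (α : Fin r →₀ ℕ) :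
    coeff α (split e (X : Fin n → MvPolynomial (Fin n) ℂ) (pderiv v B)) =
      pderiv v (coeff α (split e (X : Fin n → MvPolynomial (Fin n) ℂ) B)) := by
  classical
  ext β
  induction B using MvPolynomial.induction_on' with
  | monomial m c =>
    rw [pderiv_monomial, coef_monomial he, coeff_pderiv, coef_monomial he]
    have h1 : inn he (m - Finsupp.single v 1) = inn he m := by
      ext j
      simp only [inn, Finsupp.comapDomain_apply, Finsupp.coe_tsub, Pi.sub_apply]
      rw [Finsupp.single_apply, if_neg (Ne.symm (hv j)), Nat.sub_zero]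
    by_cases h2 : inn he m = α
    · by_cases h3 : out e m = β + Finsupp.single v 1
      · have h4 : out e (m - Finsupp.single v 1) = β := by
          ext l
          have h5 := DFunLike.congr_fun h3 l
          rw [out, Finsupp.filter_apply] at h5 ⊢
          rw [Finsupp.add_apply] at h5
          by_cases h6 : ∃ j, e j = l
          · rw [if_neg (not_not.2 h6)] at h5 ⊢
            omega
          · rw [if_pos h6] at h5 ⊢
            rw [Finsupp.coe_tsub, Pi.sub_apply, h5, Nat.add_sub_cancel]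
        have h7 : m v = β v + 1 := by
          have h5 := DFunLike.congr_fun h3 v
          rw [out, Finsupp.filter_apply, if_pos (by
            rintro ⟨j, hj⟩
            exact hv j hj), Finsupp.add_apply, Finsupp.single_eq_same] at h5
          exact h5
        rw [if_pos ⟨h1.trans h2, h4⟩, if_pos ⟨h2, h3⟩, h7]
        push_cast
        ring
      · rw [if_neg (fun h : inn he m = α ∧ out e m = β + Finsupp.single v 1 => h3 h.2), zero_mul]
        split_ifs with h4
        · -- then `m v = 0`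
          have h8 : m v = 0 := by
            by_contra h9
            apply h3
            ext l
            have h5 := DFunLike.congr_fun h4.2 l
            rw [out, Finsupp.filter_apply] at h5 ⊢
            rw [Finsupp.add_apply]
            by_cases h6 : ∃ j, e j = l
            · obtain ⟨j, rfl⟩ := h6
              rw [if_neg (not_not.2 ⟨j, rfl⟩)] at h5 ⊢
              rw [Finsupp.single_apply, if_neg (Ne.symm (hv j)), ← h5, add_zero]
            · rw [if_pos h6] at h5 ⊢
              rw [Finsupp.coe_tsub, Pi.sub_apply] at h5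
              by_cases h10 : v = l
              · subst h10
                rw [Finsupp.single_eq_same] at h5 ⊢
                omega
              · rw [Finsupp.single_apply, if_neg h10] at h5 ⊢
                omega
          rw [h8]
          simp
        · rfl
    · rw [if_neg (fun h : inn he (m - Finsupp.single v 1) = α ∧ _ => h2 (h1.symm.trans h.1)),
        if_neg (fun h : inn he m = α ∧ _ => h2 h.1), zero_mul]
  | add p q hp hq => simp only [map_add, coeff_add, hp, hq]

theorem unsplit {r : ℕ} {e : Fin r → Fin n} (he : Function.Injective e)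
    (B : MvPolynomial (Fin n) ℂ) :
    aeval (fun j => (X (e j) : MvPolynomial (Fin n) ℂ))
      (split e (X : Fin n → MvPolynomial (Fin n) ℂ) B) = B := by
  have h2 : ((aeval (fun j => (X (e j) : MvPolynomial (Fin n) ℂ)) :
      MvPolynomial (Fin r) (MvPolynomial (Fin n) ℂ) →ₐ[MvPolynomial (Fin n) ℂ]
        MvPolynomial (Fin n) ℂ).restrictScalars ℂ).comp
      (split e (X : Fin n → MvPolynomial (Fin n) ℂ)) = AlgHom.id ℂ _ := by
    apply MvPolynomial.algHom_ext
    intro l
    by_cases h3 : ∃ j, e j = l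
    · obtain ⟨j, rfl⟩ := h3
      change aeval (fun j => (X (e j) : MvPolynomial (Fin n) ℂ)) (split e X (X (e j))) = X (e j)
      rw [Pool.Agent.Helper62.VT.split_X_mem he, aeval_X]
    · change aeval (fun j => (X (e j) : MvPolynomial (Fin n) ℂ)) (split e X (X l)) = X l
      rw [Pool.Agent.Helper62.VT.split_X_not _ (by
        intro j hj
        exact h3 ⟨j, hj⟩), aeval_C]
      rfl
  exact DFunLike.congr_fun h2 B

theorem cf_der {r t : ℕ} {e : Fin r → Fin n} (he : Function.Injective e)
    {w : Fin t → MvPolynomial (Fin n) ℂ} (hw : ∀ i j, e j ∉ (w i).vars) {v : Fin t → Fin n}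
    (hv : ∀ i j, e j ≠ v i) (B : MvPolynomial (Fin n) ℂ) (α : Fin r →₀ ℕ) :
    coeff α (split e (X : Fin n → MvPolynomial (Fin n) ℂ) (∑ i, w i * pderiv (v i) B)) =
      ∑ i, w i * pderiv (v i) (coeff α (split e (X : Fin n → MvPolynomial (Fin n) ℂ) B)) := by
  rw [map_sum, coeff_sum]
  exact Finset.sum_congr rfl fun i _ => by rw [cf_mul _ _ (hw i), cf_pderiv he _ (hv i)]

theorem eigen {r t : ℕ} {e : Fin r → Fin n} (he : Function.Injective e)
    {w : Fin t → MvPolynomial (Fin n) ℂ} (hw : ∀ i j, e j ∉ (w i).vars) {v : Fin t → Fin n}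
    (hv : ∀ i j, e j ≠ v i) {g : MvPolynomial (Fin n) ℂ} (hg : g ≠ 0)
    (hk : ∀ α, ∑ i, w i * pderiv (v i)
      (coeff α (split e (X : Fin n → MvPolynomial (Fin n) ℂ) g)) = 0)
    {f : MvPolynomial (Fin n) ℂ} (hf : f ∣ g) :
    ∃ lam : MvPolynomial (Fin n) ℂ, ∀ α, ∑ i, w i * pderiv (v i)
      (coeff α (split e (X : Fin n → MvPolynomial (Fin n) ℂ) f)) =
        lam * coeff α (split e (X : Fin n → MvPolynomial (Fin n) ℂ) f) := by
  classical
  let D : Derivation ℂ (MvPolynomial (Fin n) ℂ) (MvPolynomial (Fin n) ℂ) :=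
    ∑ i, w i • pderiv (v i)
  have hD : ∀ B, D B = ∑ i, w i * pderiv (v i) B := by
    intro B
    have h1 : ∀ s : Finset (Fin t), (∑ i ∈ s, w i • (pderiv (v i) :
        Derivation ℂ (MvPolynomial (Fin n) ℂ) (MvPolynomial (Fin n) ℂ))) B =
          ∑ i ∈ s, w i * pderiv (v i) B := by
      intro s
      induction s using Finset.induction_on with
      | empty => rfl
      | insert a s ha ih =>
        rw [Finset.sum_insert ha, Finset.sum_insert ha, Derivation.add_apply, ih,
          Derivation.smul_apply, smul_eq_mul]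
    exact h1 Finset.univ
  have hinj : ∀ B, (∀ α, coeff α (split e (X : Fin n → MvPolynomial (Fin n) ℂ) B) = 0) →
      B = 0 := by
    intro B hB
    have h1 : split e (X : Fin n → MvPolynomial (Fin n) ℂ) B = 0 := by
      ext1 α
      rw [hB α, coeff_zero]
    rw [← unsplit he B, h1, map_zero]
  have hDg : D g = 0 := by
    apply hinj
    intro α
    rw [hD, cf_der he hw hv, hk]
  obtain ⟨a, ha⟩ := dvd_der D hg hDg f hf
  by_cases h0 : D f = 0
  · refine ⟨0, fun α => ?_⟩
    rw [← cf_der he hw hv, ← hD, h0, map_zero, coeff_zero, zero_mul]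
  · set S := split e (X : Fin n → MvPolynomial (Fin n) ℂ) with hS
    have h1 : S (D f) = S f * S a := by rw [ha, map_mul]
    have h2 : S (D f) ≠ 0 := by
      intro h
      apply h0
      rw [← unsplit he (D f), ← hS, h, map_zero]
    have h3 : S f ≠ 0 ∧ S a ≠ 0 := by
      rw [h1] at h2
      exact ⟨left_ne_zero_of_mul h2, right_ne_zero_of_mul h2⟩
    have h4 : (S (D f)).totalDegree ≤ (S f).totalDegree := by
      apply totalDegree_le_of_support_subset
      intro α hα
      rw [mem_support_iff] at hα ⊢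
      intro h5
      apply hα
      rw [hD, hS, cf_der he hw hv, ← hS]
      exact Finset.sum_eq_zero fun i _ => by rw [h5, map_zero, mul_zero]
    rw [h1, totalDegree_mul_of_isDomain h3.1 h3.2] at h4
    have h5 : (S a).totalDegree = 0 := by omega
    rw [totalDegree_eq_zero_iff_eq_C] at h5
    obtain ⟨lam, hlam⟩ : ∃ lam, S a = C lam := ⟨_, h5⟩
    refine ⟨lam, fun α => ?_⟩
    rw [hS, ← cf_der he hw hv, ← hD, ← hS, h1, hlam, mul_comm (S f), coeff_C_mul]

/-! ### Kalorkoti bounds of divisors -/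

/-- The polynomials without the variables `x_(e j)`. -/
noncomputable def free {r : ℕ} (e : Fin r → Fin n) : Subalgebra ℂ (MvPolynomial (Fin n) ℂ) :=
  supported ℂ {i : Fin n | ∀ j, e j ≠ i}

theorem not_mem_of_free {r : ℕ} {e : Fin r → Fin n} {x : MvPolynomial (Fin n) ℂ}
    (hx : x ∈ free e) (j : Fin r) : e j ∉ x.vars := by
  intro hj
  exact (mem_supported.1 hx) (Finset.mem_coe.2 hj) j rfl

theorem pderiv_free {r : ℕ} {e : Fin r → Fin n} {x : MvPolynomial (Fin n) ℂ}
    (hx : x ∈ free e) (v : Fin n) : pderiv v x ∈ free e := by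
  classical
  unfold free at hx
  rw [supported_eq_adjoin_X] at hx
  induction hx using Algebra.adjoin_induction with
  | mem y hy =>
    obtain ⟨i, hi, rfl⟩ := hy
    rw [pderiv_X]
    by_cases h : i = v
    · subst h
      rw [Pi.single_eq_same]
      exact Subalgebra.one_mem _
    · rw [Pi.single_eq_of_ne (by exact h)]
      exact Subalgebra.zero_mem _
  | algebraMap c =>
    rw [Derivation.map_algebraMap]
    exact Subalgebra.zero_mem _
  | add a b _ _ ha hb =>
    rw [map_add]
    exact Subalgebra.add_mem _ ha hb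
  | mul a b ha' hb' ha hb =>
    rw [Derivation.leibniz, smul_eq_mul, smul_eq_mul]
    rw [← supported_eq_adjoin_X] at ha' hb'
    exact Subalgebra.add_mem _ (Subalgebra.mul_mem _ ha' hb) (Subalgebra.mul_mem _ hb' ha)

theorem det_free {r t : ℕ} {e : Fin r → Fin n} {M : Matrix (Fin t) (Fin t) (MvPolynomial (Fin n) ℂ)}
    (hM : ∀ i j, M i j ∈ free e) : M.det ∈ free e := by
  rw [Matrix.det_apply']
  exact Subalgebra.sum_mem _ fun p _ => Subalgebra.mul_mem _ (Subalgebra.intCast_mem _ _)
    (Subalgebra.prod_mem _ fun i _ => hM _ _)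

theorem cf_free {r : ℕ} {e : Fin r → Fin n} (he : Function.Injective e)
    (B : MvPolynomial (Fin n) ℂ) (α : Fin r →₀ ℕ) :
    coeff α (split e (X : Fin n → MvPolynomial (Fin n) ℂ) B) ∈ free e := by
  unfold free
  rw [mem_supported]
  intro i hi
  exact (Pool.Agent.Helper16.KX.coef_vars he B α i (Finset.mem_coe.1 hi)).2

theorem kb_dvd' {r ρ : ℕ} {e : Fin r → Fin n} (he : Function.Injective e)
    {g f : MvPolynomial (Fin n) ℂ} (hg : g ≠ 0) (h : KB (univ.image e) ρ g) (hf : f ∣ g) :
    KB (univ.image e) (ρ + 1) f := by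
  classical
  refine kb_of_dep he fun s hs => ?_
  obtain ⟨e', he'⟩ := Pool.Agent.Helper93.D4.jac_of_algInd _ hs
  have hv : ∀ j k, e k ≠ e' j := by
    intro j k hjk
    apply he'
    apply Matrix.det_eq_zero_of_column_eq_zero j
    intro i
    rw [Matrix.of_apply]
    apply pderiv_eq_zero_of_notMem_vars
    rw [← hjk]
    exact not_mem_of_free (cf_free he f (s i)) k
  let MG : (Fin r →₀ ℕ) → Fin (ρ + 1 + 1) → MvPolynomial (Fin n) ℂ := fun α j =>
    pderiv (e' j) (coeff α (split e (X : Fin n → MvPolynomial (Fin n) ℂ) g))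
  have hMG : ∀ α j, MG α j ∈ free e := fun α j => pderiv_free (cf_free he g α) _
  let P : ℕ → Prop := fun t => ∃ (a : Fin t → (Fin r →₀ ℕ)) (c : Fin t → Fin (ρ + 1 + 1)),
    (Matrix.of fun i j => MG (a i) (c j)).det ≠ 0
  have hP1 : ¬ P (ρ + 1) := by
    rintro ⟨a, c, hac⟩
    apply hac
    have h4 := JB.jac_eq_zero (kb_dep he h a) (e' ∘ c)
    rw [JB.jac, ← Matrix.det_transpose] at h4
    exact h4
  have hP0 : P 0 := ⟨Fin.elim0, Fin.elim0, by rw [Matrix.det_isEmpty]; exact one_ne_zero⟩
  have hex : ∃ t, ¬ P t := ⟨ρ + 1, hP1⟩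
  obtain ⟨t, ht⟩ : ∃ t, Nat.find hex = t + 1 := by
    refine Nat.exists_eq_succ_of_ne_zero fun h0 => ?_
    have := Nat.find_spec hex
    rw [h0] at this
    exact this hP0
  have htP : P t := by
    by_contra hcon
    have := Nat.find_min' hex hcon
    omega
  have htP' : ¬ P (t + 1) := ht ▸ Nat.find_spec hex
  have htρ : t ≤ ρ := by
    have := Nat.find_min' hex hP1
    omega
  obtain ⟨a, c, hac⟩ := htP
  -- two columns outside the minor
  obtain ⟨l, hl, l', hl', hll⟩ : ∃ l ∈ (univ.image c)ᶜ, ∃ l' ∈ (univ.image c)ᶜ, l ≠ l' := by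
    apply Finset.one_lt_card.1
    rw [Finset.card_compl, Fintype.card_fin]
    have h1 : (univ.image c).card ≤ t := by
      refine Finset.card_image_le.trans ?_
      rw [Finset.card_univ, Fintype.card_fin]
    omega
  have hc : ∀ x ∈ (univ.image c)ᶜ, ∀ j, c j ≠ x := by
    intro x hx j hj
    rw [Finset.mem_compl] at hx
    exact hx (Finset.mem_image.2 ⟨j, Finset.mem_univ _, hj⟩)
  let W : Fin (ρ + 1 + 1) → Fin (t + 1) → MvPolynomial (Fin n) ℂ := fun x j =>
    (-1) ^ (j : ℕ) * (Matrix.of fun (i k : Fin t) =>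
      MG (a i) ((Fin.cons x c : Fin (t + 1) → Fin (ρ + 1 + 1)) (j.succAbove k))).det
  have hW0 : ∀ x, W x 0 ≠ 0 := by
    intro x h0
    apply hac
    have h1 : W x 0 = (Matrix.of fun i j => MG (a i) (c j)).det := by
      simp only [W, Fin.val_zero, pow_zero, one_mul, Fin.zero_succAbove, Fin.cons_succ]
    rw [← h1, h0]
  have hWf : ∀ x j, W x j ∈ free e := by
    intro x j
    refine Subalgebra.mul_mem _ (Subalgebra.pow_mem _ (Subalgebra.neg_mem _
      (Subalgebra.one_mem _)) _) (det_free fun i k => hMG _ _)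
  have hkill : ∀ x α, ∑ j, W x j * MG α ((Fin.cons x c : Fin (t + 1) → Fin (ρ + 1 + 1)) j) = 0 := by
    intro x α
    by_contra hcon
    apply htP'
    refine ⟨Fin.cons α a, Fin.cons x c, fun h0 => hcon ?_⟩
    rw [Matrix.det_succ_row_zero] at h0
    rw [← h0]
    refine Finset.sum_congr rfl fun j _ => ?_
    have h2 : (Matrix.of fun i j => MG ((Fin.cons α a : Fin (t + 1) → (Fin r →₀ ℕ)) i)
        ((Fin.cons x c : Fin (t + 1) → Fin (ρ + 1 + 1)) j)).submatrix Fin.succ j.succAbove =
        Matrix.of fun (i k : Fin t) =>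
          MG (a i) ((Fin.cons x c : Fin (t + 1) → Fin (ρ + 1 + 1)) (j.succAbove k)) := by
      ext1 i k
      rfl
    rw [h2]
    simp only [W, Matrix.of_apply, Fin.cons_zero]
    ring
  have heig : ∀ x, ∃ lam : MvPolynomial (Fin n) ℂ, ∀ α,
      ∑ j, W x j * pderiv (e' ((Fin.cons x c : Fin (t + 1) → Fin (ρ + 1 + 1)) j))
        (coeff α (split e (X : Fin n → MvPolynomial (Fin n) ℂ) f)) =
      lam * coeff α (split e (X : Fin n → MvPolynomial (Fin n) ℂ) f) := fun x =>
    eigen he (fun i j => not_mem_of_free (hWf x i) j) (fun i j => hv _ _) hg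
      (fun α => hkill x α) hf
  choose lam hlam using heig
  -- the vectors
  let A : Fin (ρ + 1 + 1) → Fin (ρ + 1 + 1) → MvPolynomial (Fin n) ℂ := fun x y =>
    ∑ j, if (Fin.cons x c : Fin (t + 1) → Fin (ρ + 1 + 1)) j = y then W x j else 0
  have hMA : ∀ x i, (Matrix.of fun i j => pderiv (e' j)
      (coeff (s i) (split e (X : Fin n → MvPolynomial (Fin n) ℂ) f))).mulVec (A x) i =
      lam x * coeff (s i) (split e (X : Fin n → MvPolynomial (Fin n) ℂ) f) := by
    intro x i
    rw [← hlam x (s i), Matrix.mulVec, dotProduct]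
    simp only [A, Finset.mul_sum]
    rw [Finset.sum_comm]
    refine Finset.sum_congr rfl fun j _ => ?_
    rw [Finset.sum_eq_single ((Fin.cons x c : Fin (t + 1) → Fin (ρ + 1 + 1)) j)]
    · rw [if_pos rfl, Matrix.of_apply, mul_comm]
    · intro y _ hy
      rw [if_neg (Ne.symm hy), mul_zero]
    · intro h1
      exact absurd (Finset.mem_univ _) h1
  have hAx : ∀ x ∈ (univ.image c)ᶜ, A x x = W x 0 := by
    intro x hx
    simp only [A]
    rw [Finset.sum_eq_single 0]
    · rw [Fin.cons_zero, if_pos rfl]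
    · intro j _ hj
      obtain ⟨j', rfl⟩ := Fin.exists_succ_eq.2 hj
      rw [Fin.cons_succ, if_neg (hc x hx j')]
    · intro h1
      exact absurd (Finset.mem_univ _) h1
  have hAxy : ∀ x y, x ≠ y → y ∈ (univ.image c)ᶜ → A x y = 0 := by
    intro x y hxy hy
    refine Finset.sum_eq_zero fun j _ => ?_
    refine Fin.cases ?_ (fun j' => ?_) j
    · rw [Fin.cons_zero, if_neg hxy]
    · rw [Fin.cons_succ, if_neg (hc y hy j')]
  have h1 : lam l' = 0 := by
    have h2 : (Matrix.of fun i j => pderiv (e' j)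
        (coeff (s i) (split e (X : Fin n → MvPolynomial (Fin n) ℂ) f))).mulVec
        (lam l' • A l - lam l • A l') = 0 := by
      rw [Matrix.mulVec_sub, Matrix.mulVec_smul, Matrix.mulVec_smul]
      ext1 i
      rw [Pi.sub_apply, Pi.smul_apply, Pi.smul_apply, hMA, hMA, smul_eq_mul, smul_eq_mul,
        Pi.zero_apply]
      ring
    have h3 := congrFun (Matrix.eq_zero_of_mulVec_eq_zero he' h2) l
    rw [Pi.sub_apply, Pi.smul_apply, Pi.smul_apply, hAx l hl, hAxy l' l (Ne.symm hll) hl,
      smul_zero, sub_zero, Pi.zero_apply, smul_eq_mul] at h3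
    exact (mul_eq_zero.1 h3).resolve_right (hW0 l)
  have h2 : (Matrix.of fun i j => pderiv (e' j)
      (coeff (s i) (split e (X : Fin n → MvPolynomial (Fin n) ℂ) f))).mulVec (A l') = 0 := by
    ext1 i
    rw [hMA, h1, zero_mul, Pi.zero_apply]
  have h3 := congrFun (Matrix.eq_zero_of_mulVec_eq_zero he' h2) l'
  rw [hAx l' hl', Pi.zero_apply] at h3
  exact hW0 l' h3

theorem vars_dvd {g f : MvPolynomial (Fin n) ℂ} (hg : g ≠ 0) (hf : f ∣ g) : f.vars ⊆ g.vars := by
  obtain ⟨h, rfl⟩ := hf
  intro i hi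
  rw [mem_vars_iff_degreeOf_ne_zero] at hi ⊢
  rw [degreeOf_mul_eq (left_ne_zero_of_mul hg) (right_ne_zero_of_mul hg)]
  omega

/-- Divisors of light polynomials are light. -/
theorem light_dvd {ω : Fin n → ℕ} {τ q : ℕ} {g f : MvPolynomial (Fin n) ℂ} (hg : g ≠ 0)
    (h : g ∈ Light n ω τ q) (hf : f ∣ g) : f ∈ Light n ω τ (q + 1) := by
  classical
  intro U hU hw
  obtain ⟨ρ, h1, h2⟩ := h U (hU.trans (vars_dvd hg hf)) hw
  obtain ⟨r, e, he, rfl⟩ : ∃ (r : ℕ) (e : Fin r → Fin n), Function.Injective e ∧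
      univ.image e = U := by
    refine ⟨U.card, fun i => (U.equivFin.symm i : Fin n), fun i j hij => ?_, ?_⟩
    · exact U.equivFin.symm.injective (Subtype.ext hij)
    · ext x
      rw [Finset.mem_image]
      constructor
      · rintro ⟨i, -, rfl⟩
        exact (U.equivFin.symm i).2
      · intro hx
        exact ⟨U.equivFin ⟨x, hx⟩, Finset.mem_univ _, by simp⟩
  exact ⟨ρ + 1, kb_dvd' he hg h1 hf, by omega⟩

end Pool.Agent.Helper43.LB
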