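import Pool.Agent.Helper43.LB.Closed
import Pool.Agent.Helper16.KX.Spec

/-!
# Limits of polynomials in light polynomials

Polynomials in `p` elements of `Light n ω τ q` belong to `Light n ω τ (p * q)`, and so do all
coefficientwise limits of such polynomials.
-/

set_option autoImplicit false

namespace Pool.Agent.Helper43.LB

open MvPolynomial Finset Filter Topology
open Pool.Agent.Helper16.KAL (KB)
open Pool.Agent.Helper16.KX (Light)

variable {n : ℕ}

theorem dep_sigma {p : ℕ} {M ρ : Fin p → ℕ} (c : ∀ j, Fin (M j) → MvPolynomial (Fin n) ℂ)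
    (hc : ∀ j, ∀ s : Fin (ρ j + 1) → Fin (M j), ¬ AlgebraicIndependent ℂ (fun i => c j (s i)))
    (s : Fin (∑ j, ρ j + 1) → (j : Fin p) × Fin (M j)) :
    ¬ AlgebraicIndependent ℂ (fun i => c (s i).1 (s i).2) := by
  classical
  intro h
  have h1 : ∀ j, (univ.filter (fun i => (s i).1 = j)).card ≤ ρ j := by
    intro j
    by_contra hcon
    push Not at hcon
    obtain ⟨f⟩ : Nonempty (Fin (ρ j + 1) ↪ {i // i ∈ univ.filter (fun i => (s i).1 = j)}) := by
      apply Function.Embedding.nonempty_of_card_le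
      rw [Fintype.card_fin, Fintype.card_coe]
      exact hcon
    have hf : ∀ a, (s (f a)).1 = j := fun a => (Finset.mem_filter.1 (f a).2).2
    have hex : ∀ a, ∃ k : Fin (M j), c (s (f a)).1 (s (f a)).2 = c j k := by
      intro a
      have h2 := hf a
      revert h2
      rcases s (f a) with ⟨j', k⟩
      rintro rfl
      exact ⟨k, rfl⟩
    choose t ht using hex
    apply hc j t
    have h3 : (fun a => c j (t a)) = (fun i => c (s i).1 (s i).2) ∘ fun a => (f a : Fin _) :=
      funext fun a => (ht a).symm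
    rw [h3]
    exact h.comp _ fun a b hab => f.injective (Subtype.ext hab)
  have h2 : (univ : Finset (Fin (∑ j, ρ j + 1))).card ≤ ∑ j, ρ j := by
    rw [Finset.card_eq_sum_card_fiberwise (f := fun i => (s i).1) (t := univ)
      fun _ _ => Finset.mem_coe.2 (Finset.mem_univ _)]
    exact Finset.sum_le_sum fun j _ => h1 j
  rw [Finset.card_univ, Fintype.card_fin] at h2
  omega

theorem aeval_light {p τ q : ℕ} {ω : Fin n → ℕ} {A : Fin p → MvPolynomial (Fin n) ℂ}
    (hA : ∀ j, A j ∈ Light n ω τ q) (F : MvPolynomial (Fin p) ℂ) :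
    aeval A F ∈ Light n ω τ (p * q) := by
  classical
  intro U hU hw
  have hmem : aeval A F ∈ Algebra.adjoin ℂ (Set.range A) := by
    rw [Algebra.adjoin_range_eq_range_aeval]
    exact ⟨F, rfl⟩
  have hcov : ∀ i ∈ U, ∃ j, i ∈ (A j).vars := by
    have h1 : Algebra.adjoin ℂ (Set.range A) ≤ supported ℂ {i : Fin n | ∃ j, i ∈ (A j).vars} := by
      apply Algebra.adjoin_le
      rintro _ ⟨j, rfl⟩
      change A j ∈ supported ℂ _
      rw [mem_supported]
      exact fun i hi => ⟨j, Finset.mem_coe.1 hi⟩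
    have h2 := mem_supported.1 (h1 hmem)
    exact fun i hi => h2 (Finset.mem_coe.2 (hU hi))
  have h1 : ∀ j, ∃ ρ, KB ((A j).vars ∩ U) ρ (A j) ∧ ρ + ((A j).vars ∩ U).card ≤ q := fun j =>
    hA j _ Finset.inter_subset_left
      ((Finset.sum_le_sum_of_subset Finset.inter_subset_right).trans hw)
  choose ρ h2 h3 using h1
  choose M c h4 h5 h6 using fun j => Pool.Agent.Helper16.KX.kb_enlarge (h2 j)
  let E := Fintype.equivFin ((j : Fin p) × Fin (M j))
  refine ⟨∑ j, ρ j, ⟨Fintype.card ((j : Fin p) × Fin (M j)),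
    fun k => c (E.symm k).1 (E.symm k).2, fun k => h4 _ _, ?_, fun s => ?_⟩, ?_⟩
  · have h7 : Algebra.adjoin ℂ (Set.range A) ≤ Algebra.adjoin ℂ
        ((fun i => X i) '' (U : Set (Fin n)) ∪
          Set.range fun k => c (E.symm k).1 (E.symm k).2) := by
      apply Algebra.adjoin_le
      rintro _ ⟨j, rfl⟩
      refine Algebra.adjoin_mono ?_ (h5 j)
      rintro x (⟨i, hi, rfl⟩ | ⟨k, rfl⟩)
      · exact Or.inl ⟨i, Finset.mem_coe.2 (Finset.mem_inter.1 (Finset.mem_coe.1 hi)).2, rfl⟩
      · exact Or.inr ⟨E ⟨j, k⟩, congrArg (fun x : (j : Fin p) × Fin (M j) => c x.1 x.2)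
          (E.symm_apply_apply ⟨j, k⟩)⟩
    exact h7 hmem
  · exact dep_sigma c h6 fun i => E.symm (s i)
  · have h8 : U.card ≤ ∑ j, ((A j).vars ∩ U).card := by
      refine (Finset.card_le_card ?_).trans Finset.card_biUnion_le
      intro i hi
      obtain ⟨j, hj⟩ := hcov i hi
      exact Finset.mem_biUnion.2 ⟨j, Finset.mem_univ j, Finset.mem_inter.2 ⟨hj, hi⟩⟩
    have h9 : ∑ j, (ρ j + ((A j).vars ∩ U).card) ≤ p * q := by
      refine (Finset.sum_le_card_nsmul _ _ q fun j _ => h3 j).trans ?_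
      rw [Finset.card_univ, Fintype.card_fin, smul_eq_mul]
    rw [Finset.sum_add_distrib] at h9
    omega

/-- Limits of polynomials in light polynomials are light. -/
theorem limit_light {p τ q : ℕ} {ω : Fin n → ℕ} {A : ℕ → Fin p → MvPolynomial (Fin n) ℂ}
    {F : ℕ → MvPolynomial (Fin p) ℂ} {f : MvPolynomial (Fin n) ℂ}
    (hA : ∀ t j, A t j ∈ Light n ω τ q)
    (hl : ∀ m, Tendsto (fun t => coeff m (aeval (A t) (F t))) atTop (𝓝 (coeff m f))) :
    f ∈ Light n ω τ (p * q) :=
  light_closed (fun t => aeval_light (hA t) (F t)) hl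

end Pool.Agent.Helper43.LB
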